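import Pool.Agent.Helper92.TG.GoalsX
import Pool.Agent.Helper36.TN.TCH

/-!
# Project TG (MP_a41896_nt), packet TG-GPQ (helper62): two independent points
-/

set_option autoImplicit false

namespace Pool.Agent.Helper62.TG.GPQ

open WeierstrassCurve
open Pool.Agent.Helper29.BL Pool.Agent.Helper42.SG
open Pool.Agent.Helper60.T3 (WL zd IP S_DEX)
open Pool.Agent.Helper92.TN (acl ACLA ACLB ACLP)
open Pool.Agent.Helper36.TN.TCH (exA ps_sq)

noncomputable section

theorem point {F : Type} [Field F] [CharZero F] (W : Affine F) [W.IsElliptic] (x s : F)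
    (h : s ^ 2 = Bf W x) : ∃ P : W.Point, P ≠ 0 ∧ xc P = x ∧ ps P = s := by
  have he : W.Equation x ((s - W.a₁ * x - W.a₃) / 2) := by
    rw [Affine.equation_iff]
    unfold Bf at h
    rw [WeierstrassCurve.b₂, WeierstrassCurve.b₄, WeierstrassCurve.b₆] at h
    linear_combination (1 / 4) * h
  have hn := (W.equation_iff_nonsingular).1 he
  refine ⟨Affine.Point.some _ _ hn, Affine.Point.some_ne_zero _, rfl, ?_⟩
  show 2 * ((s - W.a₁ * x - W.a₃) / 2) + W.a₁ * x + W.a₃ = s
  ring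

section

variable {K L : Type} [Field K] [CharZero K] [Field L] [IsAlgClosed L] [Algebra K L]

/-- a derivation with `D x = 1`, `D y = 0` -/
theorem der (hA : ACLA) (hB : ACLB) (hD : S_DEX) (Z : Fin 2 → L) (hZ : AlgebraicIndependent K Z)
    (i j : Fin 2) (hij : i ≠ j) : ∃ D : Derivation K L L, D (Z i) = 1 ∧ D (Z j) = 0 := by
  have h1 := ((hB K L).1 (Fin 2) Z).1 hZ i
  have h2 : Z '' {l | l ≠ i} = {Z j} := by
    ext z
    simp only [Set.mem_image, Set.mem_setOf_eq, Set.mem_singleton_iff]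
    constructor
    · rintro ⟨l, hl, rfl⟩
      have : l = j := by omega
      rw [this]
    · rintro rfl
      exact ⟨j, hij.symm, rfl⟩
  rw [h2] at h1
  have hC : IsAlgClosed (acl K ({Z j} : Set L)) := (hA K L {Z j} ∅).2.2.2.2.2.1 inferInstance
  have : CharZero (acl K ({Z j} : Set L)) :=
    charZero_of_injective_algebraMap (algebraMap K (acl K ({Z j} : Set L))).injective
  have ht : Transcendental (acl K ({Z j} : Set L)) (Z i) :=
    ((hA K L {Z j} ∅).2.2.2.2.2.2 inferInstance (Z i)).resolve_left h1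
  obtain ⟨D, hD1, -⟩ := hD (acl K ({Z j} : Set L)) L (Z i) 1 ht one_ne_zero
  refine ⟨D.restrictScalars K, hD1, ?_⟩
  have hj : Z j ∈ acl K ({Z j} : Set L) := (hA K L {Z j} ∅).2.1 rfl
  exact D.map_algebraMap (⟨Z j, hj⟩ : acl K ({Z j} : Set L))

omit [CharZero K] [IsAlgClosed L] in
/-- `B(x) ≠ 0` for a transcendental `x` -/
theorem Bf_ne [CharZero K] (W : Affine K) (x : L) (hx : Transcendental K x) :
    Bf (WL L W) x ≠ 0 := by
  intro h
  apply hx
  refine ⟨Polynomial.C 4 * Polynomial.X ^ 3 + Polynomial.C W.b₂ * Polynomial.X ^ 2 +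
    Polynomial.C 2 * Polynomial.C W.b₄ * Polynomial.X + Polynomial.C W.b₆, ?_, ?_⟩
  · intro h0
    have h1 := congrArg (fun p => Polynomial.coeff p 3) h0
    rw [← Polynomial.C_mul] at h1
    simp [Polynomial.coeff_X, Polynomial.coeff_C] at h1
  · rw [← h]
    unfold Bf
    rw [WeierstrassCurve.map_b₂, WeierstrassCurve.map_b₄, WeierstrassCurve.map_b₆]
    simp only [map_add, map_mul, map_pow, Polynomial.aeval_C, Polynomial.aeval_X, map_ofNat]

end

theorem t (hA : ACLA) (hB : ACLB) (hP : ACLP) (hD : S_DEX) : Pool.Agent.Helper92.TG.GPQ := by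
  classical
  intro K _ _ W hW
  obtain ⟨L, _, _, _, Z, hZ⟩ := exA K (Fin 2)
  have : CharZero L := charZero_of_injective_algebraMap (algebraMap K L).injective
  have hWL : (WL L W).IsElliptic := by
    unfold WL
    infer_instance
  have htr : ∀ i, Transcendental K (Z i) := fun i => hZ.transcendental i
  have hpt : ∀ i, ∃ P : (WL L W).Point, P ≠ 0 ∧ xc P = Z i ∧ ps P ≠ 0 := by
    intro i
    obtain ⟨s, hs⟩ := IsAlgClosed.exists_pow_nat_eq (Bf (WL L W) (Z i)) (n := 2) (by norm_num)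
    obtain ⟨P, h0, hx, hp⟩ := point (WL L W) (Z i) s hs
    refine ⟨P, h0, hx, ?_⟩
    rw [hp]
    intro h1
    apply Bf_ne W (Z i) (htr i)
    rw [← hs, h1]
    simp
  obtain ⟨P, hP0, hPx, hPs⟩ := hpt 0
  obtain ⟨Q, hQ0, hQx, hQs⟩ := hpt 1
  obtain ⟨D, hD1, hD2⟩ := der hA hB hD Z hZ 0 1 (by decide)
  obtain ⟨D', hD3, hD4⟩ := der hA hB hD Z hZ 1 0 (by decide)
  have h1 := ((hB K L).1 (Fin 2) Z).1 hZ 0
  have h2 : Z '' {l | l ≠ 0} = {Z 1} := by
    ext z
    simp only [Set.mem_image, Set.mem_setOf_eq, Set.mem_singleton_iff]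
    constructor
    · rintro ⟨l, hl, rfl⟩
      have : l = 1 := by omega
      rw [this]
    · rintro rfl
      exact ⟨1, by decide, rfl⟩
  rw [h2] at h1
  have hbot : ∀ z : L, ¬ Transcendental K z → z ∈ acl K (∅ : Set L) := by
    intro z hz
    rw [Transcendental, not_not] at hz
    exact ((hA K L ∅ ∅).1 z).2 (hz.tower_top _)
  have hmono : acl K (∅ : Set L) ≤ acl K ({Z 1} : Set L) :=
    (hA K L ∅ {Z 1}).2.2.1 (Set.empty_subset _)
  have hip : ∀ R : (WL L W).Point, IP (acl K (∅ : Set L) : Set L) R →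
      IP (acl K ({Z 1} : Set L) : Set L) R := by
    rintro R (hR | ⟨hR1, hR2⟩)
    · exact Or.inl hR
    · exact Or.inr ⟨hmono hR1, hmono hR2⟩
  have hPn : ¬ IP (acl K ({Z 1} : Set L) : Set L) P := by
    rintro (h | ⟨h, -⟩)
    · exact hP0 h
    · rw [hPx] at h
      exact h1 h
  have hQi : IP (acl K ({Z 1} : Set L) : Set L) Q := by
    refine (hP K L W {Z 1} Q Q 0).1 ?_
    rw [hQx]
    exact (hA K L {Z 1} ∅).2.1 rfl
  refine ⟨L, inferInstance, inferInstance, inferInstance, P, Q, D, D', ?_, ?_, ?_, ?_, ?_, ?_, ?_,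
    ?_⟩
  · have e : ![xc P, xc Q] = Z := by
      rw [hPx, hQx]
      funext i
      fin_cases i <;> rfl
    rw [e]
    exact hZ
  · unfold zd
    rw [hPx, hD1]
    exact div_ne_zero one_ne_zero hPs
  · unfold zd
    rw [hQx, hD2, zero_div]
  · unfold zd
    rw [hPx, hD4, zero_div]
  · unfold zd
    rw [hQx, hD3]
    exact div_ne_zero one_ne_zero hQs
  · by_contra hc
    have e1 := hip _ ((hP K L W ∅ (P + Q) Q 0).1 (hbot _ hc))
    have e2 := ((hP K L W {Z 1} (P + Q) Q 0).2.2 e1 hQi).2.1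
    rw [add_sub_cancel_right] at e2
    exact hPn e2
  · by_contra hc
    have e1 := hip _ ((hP K L W ∅ (P - Q) Q 0).1 (hbot _ hc))
    have e2 := ((hP K L W {Z 1} (P - Q) Q 0).2.2 e1 hQi).1
    rw [sub_add_cancel] at e2
    exact hPn e2
  · by_contra hc
    have e1 := (hP K L W ∅ (P + P) Q 0).1 (hbot _ hc)
    have e2 : (2 ^ 1 : ℕ) • P = P + P := by rw [pow_one, two_nsmul]
    rw [← e2] at e1
    exact hPn (hip _ ((hP K L W ∅ P Q 1).2.1 e1))

end

end Pool.Agent.Helper62.TG.GPQ
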