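import Pool.Agent.Helper60.TG.Goals
import Pool.Agent.Helper90.T3.SUBF
import Pool.Agent.Helper85.T3.DADD

/-!
# Project TG (MP_a41896_nt), packet TG-STEPN (helper62)
-/

set_option autoImplicit false

open MvPolynomial

namespace Pool.Agent.Helper62.TG.STEPN

open WeierstrassCurve
open Pool.Agent.Helper29.BL Pool.Agent.Helper92.Ru Pool.Agent.Helper42.SG
open Pool.Agent.Helper60.T3 (WL IP zd)
open Pool.Agent.Helper42.TN (NonIsog NoCM)
open Pool.Agent.Helper60.TG
open Pool.Agent.Helper90.T3.SUBF (coef ip_some)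

noncomputable section

theorem ps_sq {F : Type} [Field F] {W : Affine F} (P : W.Point) (hP : P ≠ 0) :
    ps P ^ 2 = Bf W (xc P) := by
  rcases P with _ | ⟨x, y, hxy⟩
  · exact absurd rfl hP
  · show (2 * y + W.a₁ * x + W.a₃) ^ 2 = Bf W x
    have h := (W.equation_iff x y).1 hxy.1
    unfold Bf
    rw [WeierstrassCurve.b₂, WeierstrassCurve.b₄, WeierstrassCurve.b₆]
    linear_combination 4 * h

section

variable {K L : Type} [Field K] [CharZero K] [Field L] [Algebra K L] {W : Affine K}

/-- an intermediate field which is algebraically closed in `L` is algebraically closed -/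
theorem closed [IsAlgClosed L] (F : IntermediateField K L)
    (hF : ∀ z : L, IsAlgebraic F z → z ∈ F) : IsAlgClosed F := by
  refine IsAlgClosed.of_exists_root _ fun p hm hp => ?_
  obtain ⟨z, hz⟩ := IsAlgClosed.exists_aeval_eq_zero L p
    (Polynomial.degree_pos_of_irreducible hp).ne'
  have hzF : z ∈ F := hF z ⟨p, hp.ne_zero, hz⟩
  refine ⟨⟨z, hzF⟩, ?_⟩
  have h1 : algebraMap F L (p.eval ⟨z, hzF⟩) = 0 := by
    rw [← hz, ← Polynomial.aeval_algebraMap_apply_eq_algebraMap_eval]
    rfl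
  exact (map_eq_zero _).1 h1

/-- `ps S ∈ F` if `xc S ∈ F` and `F` is algebraically closed in `L` -/
theorem ps_mem (F : IntermediateField K L) (hF : ∀ z : L, IsAlgebraic F z → z ∈ F)
    (S : (WL L W).Point) (hS : xc S ∈ F) : IP (F : Set L) S := by
  by_cases h0 : S = 0
  · exact Or.inl h0
  refine Or.inr ⟨hS, hF _ ?_⟩
  have hn : ∀ n : ℕ, (n : L) ∈ F := fun n => by
    have := F.algebraMap_mem (n : K)
    rwa [map_natCast] at this
  have hb : ∀ c : K, algebraMap K L c ∈ F := F.algebraMap_mem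
  have hB : Bf (WL L W) (xc S) ∈ F := by
    have e : Bf (WL L W) (xc S) = ((4 : ℕ) : L) * xc S ^ 3 + algebraMap K L W.b₂ * xc S ^ 2 +
        ((2 : ℕ) : L) * algebraMap K L W.b₄ * xc S + algebraMap K L W.b₆ := by
      unfold Bf
      rw [WeierstrassCurve.map_b₂, WeierstrassCurve.map_b₄, WeierstrassCurve.map_b₆]
      push_cast
      ring
    rw [e]
    exact F.add_mem (F.add_mem (F.add_mem (F.mul_mem (hn 4) (pow_mem hS 3))
      (F.mul_mem (hb _) (pow_mem hS 2))) (F.mul_mem (F.mul_mem (hn 2) (hb _)) hS)) (hb _)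
  refine ⟨Polynomial.X ^ 2 - Polynomial.C ⟨_, hB⟩, Polynomial.X_pow_sub_C_ne_zero (by norm_num) _,
    ?_⟩
  rw [map_sub, map_pow, Polynomial.aeval_X, Polynomial.aeval_C, ps_sq S h0]
  exact sub_self _

/-- the field `K(F, x, y)` -/
def GG (F : IntermediateField K L) (x y : L) : IntermediateField K L :=
  IntermediateField.adjoin K ((F : Set L) ∪ {x, y})

theorem GG_le (F : IntermediateField K L) (x y : L) :
    GG F x y ≤ (IntermediateField.adjoin F ({x, y} : Set L)).restrictScalars K := by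
  refine IntermediateField.adjoin_le_iff.2 ?_
  rintro z (hz | hz)
  · exact (IntermediateField.adjoin F ({x, y} : Set L)).algebraMap_mem ⟨z, hz⟩
  · exact IntermediateField.subset_adjoin F _ hz

/-- the trace point for the field `K(F, x, y)` -/
theorem core [IsAlgClosed L] [DecidableEq L] (hTRC : Pool.Agent.Helper92.TN.TRC) (hDALG : DALG)
    {W' : Affine K} [W.IsElliptic] [W'.IsElliptic] (F : IntermediateField K L)
    (D : Derivation K L L) (hDF : ∀ z ∈ F, D z ∈ F) {x y : L} (h : (WL L W).Nonsingular x y)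
    (hzv : zd D (Affine.Point.some x y h : (WL L W).Point) ∈ F) (P : (WL L W').Point)
    (hP : P ≠ 0) (hzP : zd D P ∈ F)
    (hPa : IsAlgebraic (IntermediateField.adjoin K ((F : Set L) ∪ {x})) (xc P)) :
    ∃ (r : ℕ) (S : (WL L W').Point), r ≠ 0 ∧ IP (GG F x y : Set L) S ∧
      zd D S = r * zd D P := by
  have : CharZero L := charZero_of_injective_algebraMap (algebraMap K L).injective
  have hFG : ∀ z ∈ F, z ∈ GG F x y := fun z hz =>
    IntermediateField.subset_adjoin K _ (Or.inl hz)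
  have hxG : x ∈ GG F x y := IntermediateField.subset_adjoin K _ (Or.inr (by simp))
  have hyG : y ∈ GG F x y := IntermediateField.subset_adjoin K _ (Or.inr (by simp))
  obtain ⟨c1, c2, c3, c4, c6⟩ := coef (W := W) (F := GG F x y)
  have hn : ∀ n : ℕ, (n : L) ∈ GG F x y := fun n => by
    have := (GG F x y).algebraMap_mem (n : K)
    rwa [map_natCast] at this
  have h2 : (2 : L) ∈ GG F x y := by exact_mod_cast hn 2
  have h3 : (3 : L) ∈ GG F x y := by exact_mod_cast hn 3
  have hD : ∀ c : K, D (algebraMap K L c) = 0 := D.map_algebraMap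
  have he := ((WL L W).equation_iff x y).1 h.1
  have hns := ((WL L W).nonsingular_iff x y).1 h
  have hpt := Pool.Agent.Helper85.T3.DADD.pt D (WL L W).a₁ (WL L W).a₂ (WL L W).a₃ (WL L W).a₄
    (WL L W).a₆ (hD _) (hD _) (hD _) (hD _) (hD _) x y he (by
      rcases hns.2 with h5 | h5
      · left
        intro h6
        exact h5 (by linear_combination h6)
      · right
        intro h6
        apply h5
        linear_combination h6)
  have hz : D x / (2 * y + (WL L W).a₁ * x + (WL L W).a₃) ∈ GG F x y := hFG _ hzv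
  have hDx : D x ∈ GG F x y := by
    rw [hpt.1]
    exact (GG F x y).mul_mem ((GG F x y).add_mem ((GG F x y).add_mem ((GG F x y).mul_mem h2 hyG)
      ((GG F x y).mul_mem c1 hxG)) c3) hz
  have hDy : D y ∈ GG F x y := by
    rw [hpt.2]
    exact (GG F x y).mul_mem ((GG F x y).sub_mem ((GG F x y).add_mem ((GG F x y).add_mem
      ((GG F x y).mul_mem h3 (pow_mem hxG 2)) ((GG F x y).mul_mem ((GG F x y).mul_mem h2 c2) hxG))
      c4) ((GG F x y).mul_mem c1 hyG)) hz
  have hDG : ∀ z ∈ GG F x y, D z ∈ GG F x y := by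
    refine (hDALG K L D).2.2.1 ((F : Set L) ∪ {x, y}) ?_
    rintro z (hz | hz | hz)
    · exact hFG _ (hDF z hz)
    · rw [hz]; exact hDx
    · rw [hz]; exact hDy
  have hle : IntermediateField.adjoin K ((F : Set L) ∪ {x}) ≤ GG F x y := by
    refine IntermediateField.adjoin.mono K _ _ ?_
    rintro z (hz | hz)
    · exact Or.inl hz
    · exact Or.inr (Or.inl hz)
  have hPG : IsAlgebraic (GG F x y) (xc P) := by
    obtain ⟨p, hp0, hp⟩ := hPa
    refine ⟨p.map (IntermediateField.inclusion hle).toRingHom, ?_, ?_⟩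
    · rwa [Ne, Polynomial.map_eq_zero]
    · rw [Polynomial.aeval_def, Polynomial.eval₂_map]
      exact hp
  exact hTRC K L W' (GG F x y) D P hDG hP hPG (hFG _ hzP)

end

theorem t (hTRC : Pool.Agent.Helper92.TN.TRC) (hDALG : DALG) : STEPN := by
  intro K L _ _ _ _ _ _ W W' _ _ hNI F D hFc hDF v P hv hvt hzv hP hzP hPa
  obtain ⟨x, y, h, rfl⟩ : ∃ x y, ∃ h : (WL L W).Nonsingular x y, v = Affine.Point.some x y h := by
    rcases v with _ | ⟨x, y, h⟩
    · exact absurd rfl hv
    · exact ⟨x, y, h, rfl⟩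
  obtain ⟨r, S, hr, hS, hzS⟩ := core hTRC hDALG F D hDF h hzv P hP hzP hPa
  refine ⟨r, S, hr, ?_, hzS⟩
  rcases S with _ | ⟨x', y', h'⟩
  · exact Or.inl rfl
  refine ps_mem F hFc _ ?_
  obtain ⟨hx', hy'⟩ := (ip_some h').1 hS
  have := closed F hFc
  have hmem := hNI F L x y x' y' hvt h.1 h'.1 (GG_le F x y hx') (GG_le F x y hy')
  obtain ⟨z, hz⟩ := hmem
  show x' ∈ F
  rw [← hz]
  exact z.2

end

end Pool.Agent.Helper62.TG.STEPN
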